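import Pool.Agent.Helper17.RZ.St1

/-!
# Project RZ, module A3: the Gauss extension of a valuation
-/

set_option autoImplicit false

open Polynomial

namespace Pool.Agent.Helper72.RZ

open Pool.Agent.Helper17.RZ

universe u

section basics

variable {F : Type u} [Field F] (V : ZVal F)

theorem v_one : V.v 1 = 0 := by
  have := V.mul' 1 1 one_ne_zero one_ne_zero
  rw [one_mul] at this
  linarith

theorem v_neg_one : V.v (-1) = 0 := by
  have h := V.mul' (-1) (-1) (neg_ne_zero.2 one_ne_zero) (neg_ne_zero.2 one_ne_zero)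
  rw [neg_mul_neg, one_mul, v_one] at h
  linarith

theorem v_neg (x : F) (hx : x ≠ 0) : V.v (-x) = V.v x := by
  have h := V.mul' (-1) x (neg_ne_zero.2 one_ne_zero) hx
  rw [neg_one_mul, v_neg_one] at h
  linarith

theorem v_pow (x : F) (hx : x ≠ 0) (n : ℕ) : V.v (x ^ n) = n * V.v x := by
  induction n with
  | zero => simp [v_one]
  | succ n ih =>
    rw [pow_succ, V.mul' _ _ (pow_ne_zero n hx) hx, ih]
    push_cast
    ring

theorem ge_add {n : ℤ} {x y : F} (hx : V.Ge n x) (hy : V.Ge n y) : V.Ge n (x + y) := by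
  rcases hx with rfl | hx
  · rwa [zero_add]
  rcases hy with rfl | hy
  · rw [add_zero]; exact Or.inr hx
  by_cases h0 : x + y = 0
  · exact Or.inl h0
  by_cases hx0 : x = 0
  · rw [hx0, zero_add]; exact Or.inr hy
  by_cases hy0 : y = 0
  · rw [hy0, add_zero]; exact Or.inr hx
  exact Or.inr ((le_min hx hy).trans (V.add' x y hx0 hy0 h0))

theorem ge_mul {n m : ℤ} {x y : F} (hx : V.Ge n x) (hy : V.Ge m y) : V.Ge (n + m) (x * y) := by
  by_cases hx0 : x = 0
  · left; rw [hx0, zero_mul]
  by_cases hy0 : y = 0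
  · left; rw [hy0, mul_zero]
  right
  rw [V.mul' x y hx0 hy0]
  have h1 := hx.resolve_left hx0
  have h2 := hy.resolve_left hy0
  linarith

theorem ge_mono {n m : ℤ} (h : m ≤ n) {x : F} (hx : V.Ge n x) : V.Ge m x :=
  hx.imp id h.trans

theorem ge_sum {ι : Type*} (s : Finset ι) (f : ι → F) (n : ℤ) (h : ∀ i ∈ s, V.Ge n (f i)) :
    V.Ge n (∑ i ∈ s, f i) := by
  classical
  induction s using Finset.induction_on with
  | empty => left; simp
  | insert a s ha ih =>
    rw [Finset.sum_insert ha]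
    exact ge_add V (h a (Finset.mem_insert_self _ _))
      (ih fun i hi => h i (Finset.mem_insert_of_mem hi))

theorem v_add_of_ge {x y : F} (hx : x ≠ 0) (hy : V.Ge (V.v x + 1) y) :
    x + y ≠ 0 ∧ V.v (x + y) = V.v x := by
  rcases hy with rfl | hy
  · simp [hx]
  by_cases hy0 : y = 0
  · rw [hy0]; simp [hx]
  have h0 : x + y ≠ 0 := by
    intro h
    have : y = -x := by linear_combination h
    rw [this, v_neg V x hx] at hy
    linarith
  refine ⟨h0, ?_⟩
  have h1 := V.add' x y hx hy0 h0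
  have h2 := V.add' (x + y) (-y) h0 (neg_ne_zero.2 hy0) (by simpa using hx)
  rw [v_neg V y hy0, add_neg_cancel_right] at h2
  rw [min_def] at h1 h2
  split_ifs at h1 h2 <;> linarith

end basics

section gauss

variable {F : Type u} [Field F] (V : ZVal F)

/-- `n` is the least value of the coefficients of `P` -/
def IsG (P : F[X]) (n : ℤ) : Prop :=
  (∀ i, P.coeff i ≠ 0 → n ≤ V.v (P.coeff i)) ∧ ∃ i, P.coeff i ≠ 0 ∧ n = V.v (P.coeff i)

theorem exists_isG (P : F[X]) (hP : P ≠ 0) : ∃ n, IsG V P n := by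
  obtain ⟨i, hi, h⟩ := Finset.exists_min_image P.support (fun i => V.v (P.coeff i))
    (Polynomial.support_nonempty.2 hP)
  exact ⟨V.v (P.coeff i), fun j hj => h j (mem_support_iff.2 hj), i, mem_support_iff.1 hi, rfl⟩

theorem IsG.ge {P : F[X]} {n : ℤ} (h : IsG V P n) (i : ℕ) : V.Ge n (P.coeff i) := by
  by_cases h0 : P.coeff i = 0
  · exact Or.inl h0
  · exact Or.inr (h.1 i h0)

theorem IsG.ne_zero {P : F[X]} {n : ℤ} (h : IsG V P n) : P ≠ 0 := by
  obtain ⟨i, hi, _⟩ := h.2
  rintro rfl
  simp at hi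

theorem IsG.unique {P : F[X]} {n m : ℤ} (h : IsG V P n) (h' : IsG V P m) : n = m := by
  obtain ⟨i, hi, h1⟩ := h.2
  obtain ⟨j, hj, h2⟩ := h'.2
  have h3 := h.1 j hj
  have h4 := h'.1 i hi
  linarith

theorem IsG.mul {P Q : F[X]} {n m : ℤ} (hP : IsG V P n) (hQ : IsG V Q m) :
    IsG V (P * Q) (n + m) := by
  classical
  have hge : ∀ i, V.Ge (n + m) ((P * Q).coeff i) := by
    intro i
    rw [coeff_mul]
    exact ge_sum V _ _ _ fun p _ => ge_mul V (hP.ge V _) (hQ.ge V _)
  refine ⟨fun i hi => (hge i).resolve_left hi, ?_⟩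
  -- the smallest indices
  have hi1 : ∃ i, P.coeff i ≠ 0 ∧ n = V.v (P.coeff i) := hP.2
  have hj1 : ∃ j, Q.coeff j ≠ 0 ∧ m = V.v (Q.coeff j) := hQ.2
  set i := Nat.find hi1 with hidef
  set j := Nat.find hj1 with hjdef
  have hi2 := Nat.find_spec hi1
  have hj2 := Nat.find_spec hj1
  rw [← hidef] at hi2
  rw [← hjdef] at hj2
  have hi3 : ∀ a < i, V.Ge (n + 1) (P.coeff a) := by
    intro a ha
    by_cases h0 : P.coeff a = 0
    · exact Or.inl h0
    · right
      have h1 := Nat.find_min hi1 ha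
      have h2 := hP.1 a h0
      have h3 : n ≠ V.v (P.coeff a) := fun h => h1 ⟨h0, h⟩
      omega
  have hj3 : ∀ b < j, V.Ge (m + 1) (Q.coeff b) := by
    intro b hb
    by_cases h0 : Q.coeff b = 0
    · exact Or.inl h0
    · right
      have h1 := Nat.find_min hj1 hb
      have h2 := hQ.1 b h0
      have h3 : m ≠ V.v (Q.coeff b) := fun h => h1 ⟨h0, h⟩
      omega
  have hx0 : P.coeff i * Q.coeff j ≠ 0 := mul_ne_zero hi2.1 hj2.1
  have hxv : V.v (P.coeff i * Q.coeff j) = n + m := by
    rw [V.mul' _ _ hi2.1 hj2.1, ← hi2.2, ← hj2.2]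
  have hmem : (i, j) ∈ Finset.HasAntidiagonal.antidiagonal (i + j) := by simp
  have hsum : (P * Q).coeff (i + j) = P.coeff i * Q.coeff j +
      ∑ p ∈ (Finset.HasAntidiagonal.antidiagonal (i + j)).erase (i, j), P.coeff p.1 * Q.coeff p.2 := by
    rw [coeff_mul, ← Finset.add_sum_erase _ _ hmem]
  have hrest : V.Ge (V.v (P.coeff i * Q.coeff j) + 1)
      (∑ p ∈ (Finset.HasAntidiagonal.antidiagonal (i + j)).erase (i, j), P.coeff p.1 * Q.coeff p.2) := by
    rw [hxv]
    refine ge_sum V _ _ _ ?_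
    rintro ⟨a, b⟩ hab
    rw [Finset.mem_erase, Finset.HasAntidiagonal.mem_antidiagonal] at hab
    obtain ⟨hne, hab⟩ := hab
    simp only at hab ⊢
    by_cases ha : a < i
    · have := ge_mul V (hi3 a ha) (hQ.ge V b)
      exact ge_mono V (by linarith) this
    · have hb : b < j := by
        rcases Nat.lt_or_ge b j with h | h
        · exact h
        · exfalso
          apply hne
          have h1 : a = i := by omega
          have h2 : b = j := by omega
          rw [h1, h2]
      have := ge_mul V (hP.ge V a) (hj3 b hb)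
      exact ge_mono V (by linarith) this
  obtain ⟨h1, h2⟩ := v_add_of_ge V hx0 hrest
  refine ⟨i + j, ?_, ?_⟩
  · rw [hsum]; exact h1
  · rw [hsum, h2, hxv]

theorem IsG.add {P Q : F[X]} {n m k : ℤ} (hP : IsG V P n) (hQ : IsG V Q m)
    (hPQ : IsG V (P + Q) k) : min n m ≤ k := by
  obtain ⟨i, hi, h⟩ := hPQ.2
  have h1 : V.Ge (min n m) ((P + Q).coeff i) := by
    rw [coeff_add]
    exact ge_add V (ge_mono V (min_le_left _ _) (hP.ge V i))
      (ge_mono V (min_le_right _ _) (hQ.ge V i))
  rw [h]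
  exact h1.resolve_left hi

/-- the Gauss valuation of a polynomial -/
noncomputable def gp (P : F[X]) : ℤ := by
  classical
  exact if h : P = 0 then 0 else (exists_isG V P h).choose

theorem gp_spec {P : F[X]} (h : P ≠ 0) : IsG V P (gp V P) := by
  classical
  unfold gp
  rw [dif_neg h]
  exact (exists_isG V P h).choose_spec

theorem gp_mul {P Q : F[X]} (hP : P ≠ 0) (hQ : Q ≠ 0) : gp V (P * Q) = gp V P + gp V Q :=
  (gp_spec V (mul_ne_zero hP hQ)).unique V ((gp_spec V hP).mul V (gp_spec V hQ))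

theorem gp_add {P Q : F[X]} (hP : P ≠ 0) (hQ : Q ≠ 0) (hPQ : P + Q ≠ 0) :
    min (gp V P) (gp V Q) ≤ gp V (P + Q) :=
  (gp_spec V hP).add V (gp_spec V hQ) (gp_spec V hPQ)

/-- the Gauss extension -/
noncomputable def gaussVal : ZVal (RatFunc F) where
  v r := gp V r.num - gp V r.denom
  mul' x y hx hy := by
    have h := RatFunc.num_denom_mul x y
    have hx1 := RatFunc.num_ne_zero hx
    have hy1 := RatFunc.num_ne_zero hy
    have hxy1 := RatFunc.num_ne_zero (mul_ne_zero hx hy)
    have h1 := congrArg (gp V) h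
    rw [gp_mul V hxy1 (mul_ne_zero x.denom_ne_zero y.denom_ne_zero),
      gp_mul V x.denom_ne_zero y.denom_ne_zero,
      gp_mul V (mul_ne_zero hx1 hy1) (x * y).denom_ne_zero, gp_mul V hx1 hy1] at h1
    linarith
  add' x y hx hy hxy := by
    have h := RatFunc.num_denom_add x y
    have hx1 := RatFunc.num_ne_zero hx
    have hy1 := RatFunc.num_ne_zero hy
    have hxy1 := RatFunc.num_ne_zero hxy
    have hne : x.num * y.denom + x.denom * y.num ≠ 0 := by
      intro h0
      rw [h0, zero_mul] at h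
      exact mul_ne_zero hxy1 (mul_ne_zero x.denom_ne_zero y.denom_ne_zero) h
    have h1 := congrArg (gp V) h
    rw [gp_mul V hxy1 (mul_ne_zero x.denom_ne_zero y.denom_ne_zero),
      gp_mul V x.denom_ne_zero y.denom_ne_zero, gp_mul V hne (x + y).denom_ne_zero] at h1
    have h2 := gp_add V (mul_ne_zero hx1 y.denom_ne_zero) (mul_ne_zero x.denom_ne_zero hy1) hne
    rw [gp_mul V hx1 y.denom_ne_zero, gp_mul V x.denom_ne_zero hy1] at h2
    rw [min_def] at h2 ⊢
    split_ifs at h2 ⊢ <;> linarith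

theorem gp_one : gp V (1 : F[X]) = 0 := by
  have h := gp_mul V (one_ne_zero (α := F[X])) (one_ne_zero (α := F[X]))
  rw [one_mul] at h
  linarith

theorem gaussVal_pr {P : F[X]} : (gaussVal V).v (pr P) = gp V P := by
  change gp V (algebraMap F[X] (RatFunc F) P).num - gp V (algebraMap F[X] (RatFunc F) P).denom = _
  rw [RatFunc.num_algebraMap, RatFunc.denom_algebraMap, gp_one, sub_zero]

end gauss

theorem gauss : Gauss.{u} := by
  intro F _ V
  refine ⟨gaussVal V, fun P hP => ?_⟩
  rw [gaussVal_pr]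
  have h := gp_spec V hP
  obtain ⟨i, hi, h1⟩ := h.2
  exact ⟨h.1, i, hi, h1⟩

section ram

variable {k : Type u} [Field k] [IsAlgClosed k] {F : Type u} [Field F] [Algebra k F] (V : ZVal F)

theorem v_const (c : k) (hc : c ≠ 0) : V.v (algebraMap k F c) = 0 := by
  have hinj := (algebraMap k F).injective
  have hpos : 0 < (V.v (algebraMap k F c)).natAbs + 1 := Nat.succ_pos _
  obtain ⟨d, hd⟩ := IsAlgClosed.exists_pow_nat_eq c hpos
  have hd0 : d ≠ 0 := by
    rintro rfl
    rw [zero_pow hpos.ne'] at hd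
    exact hc hd.symm
  have hd1 : algebraMap k F d ≠ 0 := (map_ne_zero_iff _ hinj).2 hd0
  have h1 : V.v (algebraMap k F c) =
      (((V.v (algebraMap k F c)).natAbs + 1 : ℕ) : ℤ) * V.v (algebraMap k F d) := by
    conv_lhs => rw [← hd, map_pow, v_pow V _ hd1]
  have h2 : (((V.v (algebraMap k F c)).natAbs + 1 : ℕ) : ℤ) ∣ V.v (algebraMap k F c) :=
    ⟨_, h1⟩
  refine Int.eq_zero_of_abs_lt_dvd h2 ?_
  push_cast
  linarith [le_refl |V.v (algebraMap k F c)|]

theorem ge_const (c : k) : V.Ge 0 (algebraMap k F c) := by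
  by_cases hc : c = 0
  · left; rw [hc, map_zero]
  · right; rw [v_const V c hc]

theorem ge_eval {P : F[X]} {n : ℤ} (hP : ∀ i, V.Ge n (P.coeff i)) (t : k) :
    V.Ge n (P.eval (algebraMap k F t)) := by
  rw [eval_eq_sum_range]
  refine ge_sum V _ _ _ fun i _ => ?_
  rw [← map_pow]
  have := ge_mul V (hP i) (ge_const V (t ^ i))
  rwa [add_zero] at this

omit [IsAlgClosed k] in
theorem basis_map (s : Finset k) (i : k) (hd : DecidableEq k) :
    Lagrange.basis s (fun j => algebraMap k F j) i =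
      (Lagrange.basis s (fun j => j) i).map (algebraMap k F) := by
  unfold Lagrange.basis
  rw [Polynomial.map_prod]
  refine Finset.prod_congr rfl fun j _ => ?_
  unfold Lagrange.basisDivisor
  simp

theorem exists_good (P : F[X]) (hP : P ≠ 0) : ∃ t : k, P.eval (algebraMap k F t) ≠ 0 ∧
    V.v (P.eval (algebraMap k F t)) = gp V P := by
  classical
  by_contra hcon
  push Not at hcon
  have hsp := gp_spec V hP
  have hge : ∀ t : k, V.Ge (gp V P + 1) (P.eval (algebraMap k F t)) := by
    intro t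
    by_cases h0 : P.eval (algebraMap k F t) = 0
    · exact Or.inl h0
    · right
      have h1 := (ge_eval V (hsp.ge V) t).resolve_left h0
      have h2 := hcon t h0
      omega
  have hinf : Infinite k := inferInstance
  obtain ⟨s, hs⟩ := Infinite.exists_subset_card_eq k (P.natDegree + 1)
  have hinj : Set.InjOn (fun j : k => algebraMap k F j) s := (algebraMap k F).injective.injOn
  have hdeg : P.degree < s.card := by
    rw [hs]
    refine (degree_le_natDegree).trans_lt ?_
    exact_mod_cast Nat.lt_succ_self _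
  have h1 := Lagrange.eq_interpolate hinj hdeg
  rw [Lagrange.interpolate_apply] at h1
  obtain ⟨i, hi, hiv⟩ := hsp.2
  have h2 : V.Ge (gp V P + 1) (P.coeff i) := by
    generalize gp V P + 1 = g at hge ⊢
    rw [h1, finsetSum_coeff]
    refine ge_sum V _ _ _ fun j _ => ?_
    rw [coeff_C_mul, basis_map, coeff_map]
    have := ge_mul V (hge j) (ge_const V ((Lagrange.basis s (fun j => j) j).coeff i))
    rwa [add_zero] at this
  have h3 := h2.resolve_left hi
  omega

theorem gaussVal_C (z : F) : (gaussVal V).v (pr (C z)) = V.v z ∨ z = 0 := by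
  by_cases hz : z = 0
  · exact Or.inr hz
  left
  rw [gaussVal_pr]
  refine (gp_spec V (C_ne_zero.2 hz)).unique V ⟨?_, 0, ?_, ?_⟩
  · intro i hi
    rw [coeff_C] at hi ⊢
    split_ifs at hi ⊢ with h
    · exact le_refl _
    · exact absurd rfl hi
  · simpa using hz
  · simp

end ram

theorem ramGauss : RamGauss.{u} := by
  intro k _ _ F _ _ V a b c ha hb hc hR
  obtain ⟨⟨C₀, hC₀⟩, x₀, y₀, hx₀, hy₀, hpar⟩ := hR
  refine ⟨gaussVal V, ⟨C₀, ?_⟩, ?_⟩
  · intro x i hxi
    obtain ⟨D, hD⟩ := IsLocalization.exist_integer_multiples_of_finite (nonZeroDivisors F[X]) x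
    choose P hP using hD
    have hD0 : (D : F[X]) ≠ 0 := nonZeroDivisors.coe_ne_zero D
    have hprD : pr (D : F[X]) ≠ 0 :=
      (map_ne_zero_iff _ (IsFractionRing.injective F[X] (RatFunc F))).2 hD0
    have hP' : ∀ j, pr (P j) = pr (D : F[X]) * x j := by
      intro j
      have h1 := hP j
      rw [Algebra.smul_def] at h1
      exact h1
    have hPi : P i ≠ 0 := by
      intro h
      have h1 := hP' i
      rw [h] at h1
      simp only [pr, map_zero] at h1
      exact mul_ne_zero hprD hxi h1.symm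
    obtain ⟨t, ht0, htv⟩ := exists_good (k := k) V (P i) hPi
    set y : Fin 3 → F := fun j => (P j).eval (algebraMap k F t) with hy
    obtain ⟨hq0, hqv⟩ := hC₀ y i ht0
    set Q : F[X] := C a * P 0 ^ 2 + C b * P 1 ^ 2 + C c * P 2 ^ 2 with hQ
    have hQe : Q.eval (algebraMap k F t) = dg a b c y := by
      simp [hQ, dg, hy]
    have hQ0 : Q ≠ 0 := by
      intro h
      rw [h, eval_zero] at hQe
      exact hq0 hQe.symm
    have hQv : gp V Q ≤ V.v (dg a b c y) := by
      have h1 := ge_eval V ((gp_spec V hQ0).ge V) t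
      rw [hQe] at h1
      exact h1.resolve_left hq0
    have hprQ : pr Q = pr (D : F[X]) ^ 2 * dg (pr (C a)) (pr (C b)) (pr (C c)) x := by
      rw [hQ]
      simp only [pr, map_add, map_mul, map_pow]
      have e0 := hP' 0
      have e1 := hP' 1
      have e2 := hP' 2
      simp only [pr] at e0 e1 e2
      rw [e0, e1, e2]
      unfold dg
      ring
    have hprQ0 : pr Q ≠ 0 :=
      (map_ne_zero_iff _ (IsFractionRing.injective F[X] (RatFunc F))).2 hQ0
    have hqx : dg (pr (C a)) (pr (C b)) (pr (C c)) x ≠ 0 := by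
      intro h
      rw [h, mul_zero] at hprQ
      exact hprQ0 hprQ
    refine ⟨hqx, ?_⟩
    have h1 : gp V Q = 2 * (gaussVal V).v (pr (D : F[X])) +
        (gaussVal V).v (dg (pr (C a)) (pr (C b)) (pr (C c)) x) := by
      rw [← gaussVal_pr, hprQ, (gaussVal V).mul' _ _ (pow_ne_zero 2 hprD) hqx,
        v_pow _ _ hprD]
      push_cast
      ring
    have h2 : gp V (P i) = (gaussVal V).v (pr (D : F[X])) + (gaussVal V).v (x i) := by
      rw [← gaussVal_pr, hP' i, (gaussVal V).mul' _ _ hprD hxi]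
    have h3 : V.v (y i) = gp V (P i) := htv
    rw [h3] at hqv
    linarith
  · have hconst : ∀ z : Fin 3 → F, dg (pr (C a)) (pr (C b)) (pr (C c)) (fun j => pr (C (z j))) =
        pr (C (dg a b c z)) := by
      intro z
      simp only [dg, pr, map_add, map_mul, map_pow]
    refine ⟨fun j => pr (C (x₀ j)), fun j => pr (C (y₀ j)), ?_, ?_, ?_⟩
    · rw [hconst]
      exact (map_ne_zero_iff _ (IsFractionRing.injective F[X] (RatFunc F))).2 (C_ne_zero.2 hx₀)
    · rw [hconst]
      exact (map_ne_zero_iff _ (IsFractionRing.injective F[X] (RatFunc F))).2 (C_ne_zero.2 hy₀)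
    · rw [hconst, hconst, (gaussVal_C V _).resolve_right hx₀, (gaussVal_C V _).resolve_right hy₀]
      exact hpar

end Pool.Agent.Helper72.RZ
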